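import Mathlib
import Pool.Agent.Helper107.MZmac2

set_option autoImplicit false
open Filter

namespace Pool.Agent.Results.MP_e061a3_an.PowerVariation

/-- A nonzero entire gap series with finite sum of reciprocal exponents is unbounded on every curve
going to infinity whose length, or whose variation of the direction z/|z|, up to time t is at most
a fixed power of |γ(t)| for arbitrarily large t. -/
theorem result :
    ∀ p : ℕ → ℕ, StrictMono p → (∀ n, 0 < p n) →
      Summable (fun n => 1 / (p n : ℝ)) →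
      ∀ a : ℕ → ℂ, (∀ z : ℂ, Summable (fun n => a n * z ^ (p n))) →
        (∃ n, a n ≠ 0) →
        ∀ γ : ℝ → ℂ, ContinuousOn γ (Set.Ici 0) →
          Tendsto (fun t => ‖γ t‖) atTop atTop →
          (∃ κ T₀ : ℝ, ∃ᶠ t in atTop,
            eVariationOn γ (Set.Icc T₀ t) ≤ ENNReal.ofReal (‖γ t‖ ^ κ) ∨
            eVariationOn (fun s => γ s / ‖γ s‖) (Set.Icc T₀ t) ≤ ENNReal.ofReal (‖γ t‖ ^ κ)) →
          ¬ ∃ M : ℝ, ∀ t : ℝ, 0 ≤ t → ‖∑' n, a n * (γ t) ^ (p n)‖ ≤ M :=
  fun p hp hp0 hsum a ha hne γ hγ hinf hvar =>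
    Pool.Agent.Helper107.MZ.mac_B p hp hp0 hsum a ha hne γ hγ hinf hvar

end Pool.Agent.Results.MP_e061a3_an.PowerVariation
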